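import Pool.Agent.N375.AV.Ex
import Pool.Agent.J6H45.PI.Use

/-!
# Andrica's inequality, with a power saving, around the values of compositions of additive functions

Andrica's conjecture says that `√q - √p < 1` for all consecutive primes `p < q`. For a real number `y ≥ 1` the property
`Strong c θ η y` says that the two intervals of length `y ^ (θ - η)` on both sides of `y` contain at least
`c y ^ (θ - η) / log y` primes and that `√q - √p < y ^ (θ - 1 / 2 - η / 2)` for the consecutive primes `p < q` with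
`p ≤ y ≤ q`. Here `(θ, e)` is one of the pairs `(1 / 2, 0.306)` and `(3 / 16, 13 / 16)`.

Let `A = f_1 ∘ ⋯ ∘ f_r` be a composition of functions dominated by the largest prime factor: for example additive functions
`f` with `f (p^j) ≤ C p^j` at the prime powers, with different values at different large primes (such as the sum of the
prime factors), the largest prime factor itself, and Kempner's function. Let `G (v) ≥ 0` satisfy
`G (v + 1) - G (v) ≥ a v ^ (d - 1)`, `a > 0`, and `G (v) ≤ K v ^ d`, for example `G (v) = α v ^ d`, and let `κ ≥ 0` satisfy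
`d e + max (0, 1 - d (1 - θ)) + κ ≤ 1`. There are `b > 0` and `K'` such that for all `m ≤ N` but
`K' N exp (- b (log N) ^ (1 / (r + 1)))`, for all integers `n ≥ 1` with `|n - A (m)| ≤ A (m) ^ κ`, ALL real numbers `y ≥ 1` with
`|y - G (n)| ≤ G (n) ^ θ` are strong.

The values of `A` are taken with very large multiplicities and `A (m)` is in general much smaller than `m`, so a bound for
the measure of the long gaps (a power saving) does not suffice by itself. For example, for almost all `m` the consecutive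
primes `p < q` around the sum of the prime factors of `m`, and those around its cube, satisfy `√q - √p < p ^ (- η)`.

Proof. (1) All poor intervals of length `X ^ (θ - η)` in `[1, X]` are near `O (X ^ (e - η))` points; this is a theorem of the
starting files (`Pool.Agent.Q278.KT`: Heath-Brown's identity and large values of Dirichlet polynomials; helper240, helper278
and others). (2) So `G (n)` is in a bad window for `O (X ^ (d (e - η) + max (0, 1 - d (1 - θ))))` integers `n ≤ X`
(`Pool.Agent.J6H45.PI.sparse_steps`). (3) `Pool.Agent.N375.AV.windows_unif` (helper375).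
-/

set_option autoImplicit false

namespace Pool.Agent.Results.MP_82fd4a_nt.AdditiveGaps

open Pool.Agent.N733.TG (expanding_pow)
open Pool.Agent.N375.AV (PD comp pd_additive pd_largest pd_kempner)
open Pool.Agent.J6H45.PI (Pair Strong Steps steps_pow)

/-- **Andrica's inequality around the values of compositions of additive functions.** (1) For `(θ, e) = (1 / 2, 0.306)` and
`(θ, e) = (3 / 16, 13 / 16)` there are `c, η > 0` such that for all lists `fs` of functions dominated by the largest prime
factor, all `G` with `G (v + 1) - G v ≥ a v ^ (d - 1)` and `0 ≤ G v ≤ K v ^ d`, all `κ ≥ 0` with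
`d e + max (0, 1 - d (1 - θ)) + κ ≤ 1` there are `b > 0` and `K'` such that for all `m ≤ N` but
`K' N exp (- b (log N) ^ (1 / (r + 1)))`, `r` the length of the list, with `v = A(m)`, for all `n ≥ 1` with `|n - v| ≤ v ^ κ` and
all `y ≥ 1` with `|y - G n| ≤ (G n) ^ θ` the number `y` is `Strong c θ η`: the intervals of length `y ^ (θ - η)` on both sides
of `y` contain at least `c y ^ (θ - η) / log y` primes, and `√q - √p < y ^ (θ - 1 / 2 - η / 2)` for the consecutive primes
`p < q` with `p ≤ y ≤ q`. (2) Examples for the functions in the list. (3) Examples for `G`. -/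
theorem result :
    (∀ θ e : ℝ, Pair θ e → ∃ c η : ℝ, 0 < c ∧ 0 < η ∧ ∀ fs : List (ℕ → ℕ), (∀ f ∈ fs, PD f) →
      ∀ (G : ℕ → ℝ) (d : ℝ), Steps G d → ∀ κ : ℝ, 0 ≤ κ → d * e + max 0 (1 - d * (1 - θ)) + κ ≤ 1 → ∃ b K : ℝ, 0 < b ∧
        ∀ N : ℕ, 1 ≤ N → ({m : ℕ | 1 ≤ m ∧ m ≤ N ∧ ¬ ∀ n : ℕ, 1 ≤ n →
          |(n : ℝ) - comp fs m| ≤ (comp fs m : ℝ) ^ κ →
          ∀ y : ℝ, 1 ≤ y → |y - G n| ≤ G n ^ θ → Strong c θ η y}.ncard : ℝ) ≤
            K * N * Real.exp (-(b * Real.log N ^ ((1 : ℝ) / (fs.length + 1))))) ∧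
    ((∀ f : ℕ → ℕ, (∀ a b : ℕ, Nat.Coprime a b → f (a * b) = f a + f b) →
        (∃ C : ℕ, ∀ p j : ℕ, p.Prime → 1 ≤ j → f (p ^ j) ≤ C * p ^ j) →
        (∃ P : ℕ, ∀ p p' : ℕ, p.Prime → p'.Prime → P ≤ p → P ≤ p' → f p = f p' → p = p') → PD f) ∧
      PD (fun n => n.primeFactors.sup id) ∧ PD (fun n => sInf {k : ℕ | n ∣ k.factorial})) ∧
    (∀ α d : ℝ, 0 < α → 1 ≤ d → Steps (fun v : ℕ => α * (v : ℝ) ^ d) d) := by
  refine ⟨fun θ e h => ?_, ⟨fun f h1 h2 h3 => pd_additive h1 h2 h3, pd_largest, pd_kempner⟩,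
    fun α d hα hd => steps_pow hα hd⟩
  obtain ⟨c, η, hc, hη, hηe, -, H⟩ := Pool.Agent.J6H45.PI.sparse_G h
  refine ⟨c, η, hc, hη, fun fs hfs G d hG κ hκ h1 => ?_⟩
  obtain ⟨C, hC⟩ := H G d hG
  have hd : 1 ≤ d := hG.1
  have hmax : 0 ≤ max 0 (1 - d * (1 - θ)) := le_max_left _ _
  have h2 : 0 ≤ d * (e - η) := mul_nonneg (by linarith) (by linarith)
  obtain ⟨b, K, hb, hN₀⟩ := Pool.Agent.J6H45.WF.add fs hfs (G := fun v => (v : ℝ)) (d := 1)
    (by simpa using expanding_pow one_pos (le_refl (1 : ℝ))) (s := d * (e - η) + max 0 (1 - d * (1 - θ))) (κ := κ)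
    (by linarith) hκ (by nlinarith) C
  exact ⟨b, K, hb, fun N hN => hN₀ _ hC N hN⟩

end Pool.Agent.Results.MP_82fd4a_nt.AdditiveGaps
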