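import Pool.Agent.J6H45.PI.Use

/-!
# Andrica's inequality, with a power saving, around the orbits of Euler's function

Andrica's conjecture says that `√q - √p < 1` for all consecutive primes `p < q`. For a real number `y ≥ 1` the property
`Strong c θ η y` says that the two intervals of length `y ^ (θ - η)` on both sides of `y` contain at least
`c y ^ (θ - η) / log y` primes and that `√q - √p < y ^ (θ - 1 / 2 - η / 2)` for the consecutive primes `p < q` with
`p ≤ y ≤ q`. Here `(θ, e)` is one of the pairs `(1 / 2, 0.306)` and `(3 / 16, 13 / 16)`: the bound is `y ^ (- η / 2)`, or even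
`y ^ (- 5 / 16 - η / 2)`.

Let `φ_l` be the `l`-th iterate of Euler's function, `φ_0 (m) = m`, and let `g` be a positive multiplicative function of at
most polynomial growth such that `g p ≤ M p` for the large primes `p`, with different values at different large primes; for
example the identity, Euler's function or the sum of the divisors. Let `G (v) ≥ 0` satisfy `G (v + 1) - G (v) ≥ a v ^ (d - 1)`
with `a > 0` and `G (v) ≤ K v ^ d`, for example `G (v) = α v ^ d`, and let `κ ≥ 0` satisfy

`d e + max (0, 1 - d (1 - θ)) + κ ≤ 1`.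

Then for all `L`, almost all `m`, all `l ≤ L` and `v = g (φ_l (m))`, and all integers `n ≥ 1` with `|n - v| ≤ v ^ κ`, ALL real
numbers `y ≥ 1` with `|y - G (n)| ≤ G (n) ^ θ` are strong, with `c` and `η > 0` that depend only on `θ`. For `θ = 1 / 2` the
condition is `κ ≤ 0.194 d` for `d ≤ 2` and `κ ≤ 1 - 0.306 d` for `2 ≤ d ≤ 3.26`. So for almost all `m`, with `v = φ_l (m)` and
`l ≤ L`, all consecutive primes `p < q` with `p ≤ v ^ 3 + v ^ (3 / 2)` and `q ≥ v ^ 3 - v ^ (3 / 2)` satisfy
`√q - √p < v ^ (- η)` (with another `η`); and the consecutive primes `p < q` around `v` satisfy `√q - √p < v ^ (- 5 / 16 - η)`,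
that is `q - p ≤ 3 v ^ (3 / 16 - η)`.

The iterates of Euler's function are not multiplicative, their values form a thin set and are taken with very large
multiplicities, and so a bound for the measure of the long gaps (a power saving) does not suffice by itself.

Proof. (1) All poor intervals of length `X ^ (θ - η)` in `[1, X]` are near `O (X ^ (e - η))` points; this is a theorem of the
starting files (`Pool.Agent.Q278.KT`: Heath-Brown's identity and large values of Dirichlet polynomials; helper240, helper278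
and others), made for the multiplicative functions of sum zero and used only there. (2) So `G (n)` is in a bad window for
`O (X ^ (d (e - η) + max (0, 1 - d (1 - θ))))` integers `n ≤ X` (`Pool.Agent.J6H45.PI.sparse_steps`). (3) The orbits of Euler's
function avoid sets with a power saving (`Pool.Agent.N760.IT.densW`, helper760).
-/

set_option autoImplicit false

namespace Pool.Agent.Results.MP_82fd4a_nt.OrbitGaps

open Pool.Agent.N733.TG (LM lm_totient lm_sigma expanding_pow)
open Pool.Agent.N760.IT (orb lm_id)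
open Pool.Agent.J6H45.PI (Pair Strong Steps steps_pow)

/-- **Andrica's inequality around the orbits of Euler's function.** (1) For `(θ, e) = (1 / 2, 0.306)` and
`(θ, e) = (3 / 16, 13 / 16)` there are `c, η > 0` such that for all multiplicative functions `g` as above, all `G` with
`G (v + 1) - G v ≥ a v ^ (d - 1)` and `0 ≤ G v ≤ K v ^ d`, all `κ ≥ 0` with `d e + max (0, 1 - d (1 - θ)) + κ ≤ 1`, all `L` and
`ε > 0` and all large `N`: for all `m ≤ N` but `ε N`, all `l ≤ L`, with `v = g(φ_l(m))` (`orb g l m`), all `n ≥ 1` with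
`|n - v| ≤ v ^ κ` and all `y ≥ 1` with `|y - G n| ≤ (G n) ^ θ` the number `y` is `Strong c θ η`: the intervals of length
`y ^ (θ - η)` on both sides of `y` contain at least `c y ^ (θ - η) / log y` primes, and `√q - √p < y ^ (θ - 1 / 2 - η / 2)` for
the consecutive primes `p < q` with `p ≤ y ≤ q`. (2) Examples for `g` and `G`. -/
theorem result :
    (∀ θ e : ℝ, Pair θ e → ∃ c η : ℝ, 0 < c ∧ 0 < η ∧ ∀ g : ℕ → ℕ, LM g → ∀ (G : ℕ → ℝ) (d : ℝ), Steps G d →
      ∀ κ : ℝ, 0 ≤ κ → d * e + max 0 (1 - d * (1 - θ)) + κ ≤ 1 → ∀ (L : ℕ) (ε : ℝ), 0 < ε → ∃ N₀ : ℕ, ∀ N : ℕ, N₀ ≤ N →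
        ({m : ℕ | 1 ≤ m ∧ m ≤ N ∧ ¬ ∀ l ≤ L, ∀ n : ℕ, 1 ≤ n → |(n : ℝ) - orb g l m| ≤ (orb g l m : ℝ) ^ κ →
          ∀ y : ℝ, 1 ≤ y → |y - G n| ≤ G n ^ θ → Strong c θ η y}.ncard : ℝ) ≤ ε * N) ∧
    (LM (fun m => m) ∧ LM Nat.totient ∧ LM (fun m => ∑ d ∈ m.divisors, d)) ∧
    (∀ α d : ℝ, 0 < α → 1 ≤ d → Steps (fun v : ℕ => α * (v : ℝ) ^ d) d) := by
  refine ⟨fun θ e h => ?_, ⟨lm_id, lm_totient, lm_sigma⟩, fun α d hα hd => steps_pow hα hd⟩
  obtain ⟨c, η, hc, hη, hηe, -, H⟩ := Pool.Agent.J6H45.PI.sparse_G h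
  refine ⟨c, η, hc, hη, fun g hg G d hG κ hκ h1 L ε hε => ?_⟩
  obtain ⟨C, hC⟩ := H G d hG
  have hd : 1 ≤ d := hG.1
  have hmax : 0 ≤ max 0 (1 - d * (1 - θ)) := le_max_left _ _
  have h2 : 0 ≤ d * (e - η) := mul_nonneg (by linarith) (by linarith)
  obtain ⟨N₀, hN₀⟩ := Pool.Agent.J6H45.WF.orbit hg (G := fun v => (v : ℝ)) (d := 1)
    (by simpa using expanding_pow one_pos (le_refl (1 : ℝ))) (s := d * (e - η) + max 0 (1 - d * (1 - θ))) (κ := κ)
    (by linarith) hκ (by nlinarith) C L ε hε
  exact ⟨N₀, fun N hN => hN₀ N hN _ hC⟩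

end Pool.Agent.Results.MP_82fd4a_nt.OrbitGaps
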