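import Pool.Agent.J6H45.PI.Use
import Pool.Agent.J6H45.WF.Poly

/-!
# Andrica's inequality, with a power saving, around functions of the values of polynomials at approximation vectors

Andrica's conjecture says that `√q - √p < 1` for all consecutive primes `p < q`. For a real number `y ≥ 1` the property
`Strong c θ η y` says that the two intervals of length `y ^ (θ - η)` on both sides of `y` contain at least
`c y ^ (θ - η) / log y` primes and that `√q - √p < y ^ (θ - 1 / 2 - η / 2)` for the consecutive primes `p < q` with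
`p ≤ y ≤ q`. Here `(θ, e)` is one of the pairs `(1 / 2, 0.306)` and `(3 / 16, 13 / 16)`.

Let `k ≥ 1`, `D` and `r` be natural numbers, `γ ∈ ℝ^r` and `τ > 0`, and let `G (n) ≥ 0` satisfy
`G (n + 1) - G (n) ≥ a n ^ (d - 1)`, `a > 0`, and `G (n) ≤ K n ^ d`, for example `G (n) = β n ^ d`. Put
`s = d (e - η) + max (0, 1 - d (1 - θ))`. For all real matrices `α` with `k` rows and `r` columns outside a set of Hausdorff
dimension at most `(k - 1) r + (r + k - 1 + D s) / (1 + τ)`, for ALL nonconstant polynomials `F` in `k` variables with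
integral coefficients and of degree at most `D`, and for all real `c'`: for all large integer vectors `v` with
`‖(v α)_j - γ_j‖ ≤ c' |v| ^ (-τ)` for all `j`, where `‖x‖` is the distance of `x` to the nearest integer, the integer
`n = |F(v)|` is not `0`, and ALL real numbers `y ≥ 1` with `|y - G (n)| ≤ G (n) ^ θ` are strong.

For `τ = k / r`, `γ = 0` and `c' = 1` these are all the best approximation vectors `v` of the system `α` of `r` linear forms
in `k` variables, and the bound for the dimension is less than `k r` if `D s < 1`, for example for `D = 1` and `d ≤ 3.26`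
(`θ = 1 / 2`). For example (`k = r = D = 1`, `G (n) = n ^ 2`): for all real numbers `α` outside a set of dimension less than
`0.806`, for all convergents `p / q` of `α` with large `q`, all the consecutive primes `P < Q` which meet the interval
`[q ^ 2 - q, q ^ 2 + q]` satisfy `√Q - √P < q ^ (- η)`.

Proof. (1) All poor intervals of length `X ^ (θ - η)` in `[1, X]` are near `O (X ^ (e - η))` points; this is a theorem of the
starting files (`Pool.Agent.Q278.KT`: Heath-Brown's identity and large values of Dirichlet polynomials; helper240, helper278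
and others). (2) So `G (n)` is in a bad window for `O (X ^ s)` integers `n ≤ X` (`Pool.Agent.J6H45.PI.sparse_steps`). (3) There
are `O (X ^ (k - 1 + D s + ε))` vectors `v` in the box of size `X` with `|F(v)|` exceptional, by the lemma of Schwartz and Zippel
(`Pool.Agent.J6H45.WF.thin_poly`). (4) The metric theorem `Pool.Agent.N671.DA.approx_vectors` (helper671).
-/

set_option autoImplicit false

namespace Pool.Agent.Results.MP_82fd4a_nt.PolynomialsAtApproximations

open Pool.Agent.N671.DA (Near)
open Pool.Agent.J6H45.PI (Pair Strong Steps steps_pow)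

/-- **Andrica's inequality around functions of the values of polynomials at approximation vectors.** (1) For
`(θ, e) = (1 / 2, 0.306)` and `(θ, e) = (3 / 16, 13 / 16)` there are `c, η > 0` such that for all `G` with
`G (n + 1) - G n ≥ a n ^ (d - 1)` and `0 ≤ G n ≤ K n ^ d`, all `k ≥ 1`, `D`, `r`, all `γ ∈ ℝ^r` and `τ > 0` there is a set `S` of
real matrices with `k` rows and `r` columns of Hausdorff dimension at most
`(k - 1) r + (r + k - 1 + D (d (e - η) + max (0, 1 - d (1 - θ)))) / (1 + τ)` such that for all `α` outside `S`, all polynomials `F`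
with integral coefficients of degree between `1` and `D` and all `c'`, for all large integer vectors `v` with
`‖(v α)_j - γ_j‖ ≤ c' |v| ^ (-τ)` for all `j`, the integer `F(v)` is not `0`, and all `y ≥ 1` with `|y - G |F(v)|| ≤ (G |F(v)|) ^ θ`
are `Strong c θ η`: the intervals of length `y ^ (θ - η)` on both sides of `y` contain at least `c y ^ (θ - η) / log y` primes,
and `√q - √p < y ^ (θ - 1 / 2 - η / 2)` for the consecutive primes `p < q` with `p ≤ y ≤ q`. (2) Examples for `G`. -/
theorem result :
    (∀ θ e : ℝ, Pair θ e → ∃ c η : ℝ, 0 < c ∧ 0 < η ∧ ∀ (G : ℕ → ℝ) (d : ℝ), Steps G d → ∀ k D r : ℕ, 1 ≤ k →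
      ∀ (γ : Fin r → ℝ) (τ : ℝ), 0 < τ → ∃ S : Set (Fin k × Fin r → ℝ),
        dimH S ≤ ENNReal.ofReal (((k : ℝ) - 1) * r +
          (r + ((k : ℝ) - 1 + D * (d * (e - η) + max 0 (1 - d * (1 - θ))))) / (1 + τ)) ∧
        ∀ α, α ∉ S → ∀ F : MvPolynomial (Fin k) ℤ, 1 ≤ F.totalDegree → F.totalDegree ≤ D → ∀ c' : ℝ, ∃ Q : ℝ,
          ∀ v : Fin k → ℤ, Q ≤ ‖v‖ → Near α γ v (c' * ‖v‖ ^ (-τ)) → MvPolynomial.eval v F ≠ 0 ∧
            ∀ y : ℝ, 1 ≤ y → |y - G (MvPolynomial.eval v F).natAbs| ≤ G (MvPolynomial.eval v F).natAbs ^ θ →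
              Strong c θ η y) ∧
    (∀ α d : ℝ, 0 < α → 1 ≤ d → Steps (fun v : ℕ => α * (v : ℝ) ^ d) d) := by
  refine ⟨fun θ e h => ?_, fun α d hα hd => steps_pow hα hd⟩
  obtain ⟨c, η, hc, hη, hηe, -, H⟩ := Pool.Agent.J6H45.PI.sparse_G h
  refine ⟨c, η, hc, hη, fun G d hG k D r hk γ τ hτ => ?_⟩
  obtain ⟨C, hC⟩ := H G d hG
  have hd : 1 ≤ d := hG.1
  have hmax : 0 ≤ max 0 (1 - d * (1 - θ)) := le_max_left _ _
  have h2 : 0 ≤ d * (e - η) := mul_nonneg (by linarith) (by linarith)
  refine Pool.Agent.J6H45.WF.approx_poly hk (s := d * (e - η) + max 0 (1 - d * (1 - θ))) (by linarith)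
    (fun δ hδ => ⟨|C|, fun X hX => (hC X hX).trans ?_⟩) D γ hτ
  refine mul_le_mul (le_abs_self C) ?_ (by positivity) (abs_nonneg C)
  exact Real.rpow_le_rpow_of_exponent_le (by exact_mod_cast hX) (by linarith)

end Pool.Agent.Results.MP_82fd4a_nt.PolynomialsAtApproximations
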