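import Pool.Agent.J6H45.PI.Use

/-!
# Andrica's inequality, with a power saving, around the terms of sequences with a real parameter

Andrica's conjecture says that `√q - √p < 1` for all consecutive primes `p < q`. For a real number `y ≥ 1` the property
`Strong c θ η y` says that the two intervals of length `y ^ (θ - η)` on both sides of `y` contain at least
`c y ^ (θ - η) / log y` primes and that `√q - √p < y ^ (θ - 1 / 2 - η / 2)` for the consecutive primes `p < q` with
`p ≤ y ≤ q`. Here `(θ, e)` is one of the pairs `(1 / 2, 0.306)` and `(3 / 16, 13 / 16)`.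

Let `f_l`, `l = 0, 1, 2, …`, be positive functions on `(x₀, ∞)`, `x₀ ≥ 0`, such that `f_l(x) / x` is nondecreasing and such
that the sequence `f_l(x)` has exponent of convergence at most `σ` for each `x > x₀`: for instance `f_l(x) = v_l x`
(dilatations; `σ` the exponent of convergence of `v_l > 0`), `f_l(x) = x ^ (v_l)` for exponents `v_l ≥ 1` (`σ = 0`), or the
orbits `f_l(x) = g (g (⋯ g (x)))` of any map `g` with `g(x) > x` and `g(x) / x` nondecreasing (`σ = 0`). For all `x > x₀`
outside a set of Hausdorff dimension at most `(e - η + σ) / (1 - θ)` and each `c'`, for all but finitely many `l`, ALL the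
real numbers `y ≥ 1` with `|y - f_l(x)| ≤ c' f_l(x) ^ θ` are strong.

For example, for all real numbers `x > 1` outside a set of Hausdorff dimension less than `0.612`, for all large `l` the
consecutive primes `p < q` around `x ^ l`, and all the other pairs of consecutive primes which meet the interval of length
`x ^ (l / 2)` around `x ^ l`, satisfy `√q - √p < x ^ (- η l / 3)`; and outside a set of Hausdorff dimension less than `1` the
consecutive primes around `x ^ l` satisfy `√q - √p < x ^ (- (5 / 16 + η / 3) l)`, so that `q - p ≤ 3 x ^ ((3 / 16 - η / 3) l)`.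

Proof. All poor intervals of length `X ^ (θ - η)` in `[1, X]` are near `O (X ^ (e - η))` points; this is a theorem of the
starting files (`Pool.Agent.Q278.KT`: Heath-Brown's identity and large values of Dirichlet polynomials; helper240, helper278
and others), made for the multiplicative functions of sum zero and used only there; and `Pool.Agent.R482.ST.windows`
(helper482).
-/

set_option autoImplicit false

namespace Pool.Agent.Results.MP_82fd4a_nt.SequencesWithAParameter

open Pool.Agent.J6H45.PI (Pair Strong)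

/-- the functions `f l` are positive on `(a, ∞)`, `a ≥ 0`, and `f l x / x` is nondecreasing there -/
def Starshaped (a : ℝ) (f : ℕ → ℝ → ℝ) : Prop :=
  0 ≤ a ∧ ∀ l : ℕ, ∀ x y : ℝ, a < x → x ≤ y → 0 < f l x ∧ f l x / x ≤ f l y / y

/-- for each `x > a` the exponent of convergence of the sequence `f l x` is at most `σ` -/
def ExpLe (a : ℝ) (f : ℕ → ℝ → ℝ) (σ : ℝ) : Prop :=
  ∀ x : ℝ, a < x → ∀ t : ℝ, σ < t → Summable (fun l : ℕ => (f l x) ^ (-t))

/-- **Andrica's inequality around the terms of sequences with a parameter.** For `(θ, e) = (1 / 2, 0.306)` and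
`(θ, e) = (3 / 16, 13 / 16)` there are `c, η > 0` such that for all starshaped functions `f_l` on `(x₀, ∞)` of exponent `σ`
there is a set `E` of Hausdorff dimension at most `(e - η + σ) / (1 - θ)` such that for all `x > x₀` outside `E` and all `c'`,
for all large `l`, all `y ≥ 1` with `|y - f_l(x)| ≤ c' f_l(x) ^ θ` are `Strong c θ η`: the intervals of length `y ^ (θ - η)` on
both sides of `y` contain at least `c y ^ (θ - η) / log y` primes, and `√q - √p < y ^ (θ - 1 / 2 - η / 2)` for the consecutive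
primes `p < q` with `p ≤ y ≤ q`. The functions `v_l x`, `v_l > 0`, are starshaped on `(0, ∞)`, of exponent `σ` if `v` has
exponent of convergence at most `σ`; the functions `x ^ (v_l)`, `v_l ≥ 1`, are starshaped on `(1, ∞)`, of exponent `0` if the
sums of `exp (-t v_l)` converge for `t > 0`; and the iterates of a map `g` with `g(x) > x` for `x > x₀` and `g(x) / x`
nondecreasing are starshaped on `(x₀, ∞)`, of exponent `0`. -/
theorem result :
    (∀ θ e : ℝ, Pair θ e → ∃ c η : ℝ, 0 < c ∧ 0 < η ∧ ∀ (f : ℕ → ℝ → ℝ) (x₀ σ : ℝ), Starshaped x₀ f → 0 ≤ σ →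
      ExpLe x₀ f σ → ∃ E : Set ℝ, dimH E ≤ ENNReal.ofReal ((e - η + σ) / (1 - θ)) ∧
        ∀ x : ℝ, x₀ < x → x ∉ E → ∀ c' : ℝ, ∃ l₀ : ℕ, ∀ l : ℕ, l₀ ≤ l → ∀ y : ℝ, 1 ≤ y →
          |y - f l x| ≤ c' * (f l x) ^ θ → Strong c θ η y) ∧
    (∀ (v : ℕ → ℝ) (σ : ℝ), (∀ l, 0 < v l) → (∀ t : ℝ, σ < t → Summable (fun l : ℕ => (v l) ^ (-t))) →
      Starshaped 0 (fun l x => v l * x) ∧ ExpLe 0 (fun l x => v l * x) σ) ∧
    (∀ v : ℕ → ℝ, (∀ l, 1 ≤ v l) → (∀ t : ℝ, 0 < t → Summable fun l : ℕ => Real.exp (-(t * v l))) →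
      Starshaped 1 (fun l x => x ^ (v l)) ∧ ExpLe 1 (fun l x => x ^ (v l)) 0) ∧
    (∀ (x₀ : ℝ) (g : ℝ → ℝ), 0 ≤ x₀ → (∀ x y : ℝ, x₀ < x → x ≤ y → g x / x ≤ g y / y) → (∀ x : ℝ, x₀ < x → x < g x) →
      Starshaped x₀ (fun l x => g^[l] x) ∧ ExpLe x₀ (fun l x => g^[l] x) 0) := by
  refine ⟨fun θ e h => ?_, Pool.Agent.R482.ST.ex_mul, Pool.Agent.R482.ST.ex_pow, Pool.Agent.R482.ST.ex_orbit⟩
  obtain ⟨c, η, hc, hη, hηe, -, C, hC, T, hT1, hT2⟩ := Pool.Agent.J6H45.PI.pairs h
  obtain ⟨h1, h2, -, -⟩ := h.bounds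
  exact ⟨c, η, hc, hη, fun f x₀ σ hf hσ hv =>
    Pool.Agent.J6H45.PI.star_P hC (by linarith) hT1 h1 h2 hT2 hf hσ hv⟩

end Pool.Agent.Results.MP_82fd4a_nt.SequencesWithAParameter
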